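import Pool.Agent.H14.MssE

set_option autoImplicit false

namespace Pool.Agent.Results.MP_8e2f96_co.Gap

open Pool.Agent.H14.Mag

theorem result :
    ∀ (d : ℕ), 2 ≤ d → ∃ c : ℝ, 0 < c ∧
      ∀ (V : Type) [Fintype V] [DecidableEq V] (G : SimpleGraph V) [DecidableRel G.Adj],
        G.Connected → (∀ v, d ≤ G.degree v) →
        ∀ (hL : (G.lapMatrix ℝ).IsHermitian) (i : Fin (Fintype.card V)),
          i.val + 2 = Fintype.card V → hL.eigenvalues₀ i ≤ c * nu G :=
  fun _ hd => ⟨10000, by norm_num, fun _ _ _ G _ hc h hL i hi =>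
    Pool.Agent.H14.Mss.gap_le G hc (fun v => hd.trans (h v)) hL i hi⟩

end Pool.Agent.Results.MP_8e2f96_co.Gap
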